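import Pool.Agent.H44.DG.Targets3
import Pool.Agent.H3.DG.LMR
import Pool.Agent.H3.DG.LMP
import Pool.Agent.H65.DG.FLO
import Pool.Agent.H85.DG.SND
import Pool.Agent.H65.DG.CAS

/-! OPB: realisation of `Pre` for drawings with one big walk and isolated points. -/

namespace Pool.Agent.H2.DG.OPB

open Pool.Agent.H44.DG

/-! ### Drawings and steps -/

lemma einv_draw {V : Type} {D D' : Drawing V} (hE : EInv D) (hD : Draw D D') : EInv D' := by
  obtain ⟨u, v, huv, hne, hed, Φ, Ψ, F, hF, hF', hm⟩ := hD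
  intro x y hxy
  have h1 := hE x y hxy
  rw [hed, hF', adj_add, hm.adj, Set.mem_insert_iff, Sym2.eq_iff, h1, hF, adj_cons]
  tauto

lemma draw_step {V : Type} {D D' : Drawing V} (hE : EInv D) (hD : Draw D D') :
    LStep D.regions D'.regions := by
  obtain ⟨u, v, huv, hne, hed, Φ, Ψ, F, hF, hF', hm⟩ := hD
  exact ⟨u, v, huv, fun h => hne ((hE u v huv).2 h), Φ, Ψ, F, hF, hF', hm⟩

lemma step_draw {V : Type} {D : Drawing V} (hE : EInv D) {F' : Multiset (Region V)}
    (h : LStep D.regions F') : ∃ D', Draw D D' ∧ D'.regions = F' := by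
  obtain ⟨u, v, huv, hne, Φ, Ψ, F, hF, hF', hm⟩ := h
  exact ⟨⟨insert s(u, v) D.edges, F'⟩, ⟨u, v, huv, fun h => hne ((hE u v huv).1 h), rfl, Φ, Ψ, F,
    hF, hF', hm⟩, rfl⟩

/-! ### Realisation of `TwoL` and `Ans2` -/

lemma real_add {V : Type} (c : Ctx V) (L₁ L₂ : LF) : real c (L₁ + L₂) = real c L₁ + real c L₂ := by
  unfold real
  rw [Multiset.add_bind]

lemma vs_add {V : Type} (c : Ctx V) (L₁ L₂ : LF) : vs c (L₁ + L₂) = vs c L₁ + vs c L₂ := by
  unfold vs
  rw [Multiset.add_bind]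

/-- valid realisations without `T` faces that use all vertices -/
structure Val {n : ℕ} (c : Ctx (Fin n)) (N : ℕ) (L : LF) : Prop where
  noT : ∀ i w, (Tag.T i, w) ∉ L
  cont : ∀ k w, (Tag.R k, w) ∈ L → Content (c.FL k) (c.WL k) (c.FI k)
  all : ((List.range N).map c.f : Multiset (Fin n)) + vs c L = (Finset.univ : Finset (Fin n)).val

lemma two_real {n : ℕ} {c : Ctx (Fin n)} {N : ℕ} {L : LF} (hV : Val c N L) (h : TwoL N L) :
    Two (real c L) := by
  obtain ⟨a, b, d, I₁, I₂, L₁, L₂, rfl, h1, h2, h3⟩ := h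
  have s1 := Pool.Agent.H85.DG.SND.pf_SND (Fin n) _ _ _ h1 c
    (fun i w h => absurd (Multiset.mem_add.2 (Or.inl h)) (hV.noT i w))
    (fun k w h => hV.cont k w (Multiset.mem_add.2 (Or.inl h)))
  have s2 := Pool.Agent.H85.DG.SND.pf_SND (Fin n) _ _ _ h2 c
    (fun i w h => absurd (Multiset.mem_add.2 (Or.inr h)) (hV.noT i w))
    (fun k w h => hV.cont k w (Multiset.mem_add.2 (Or.inr h)))
  refine ⟨c.f a, c.f b, c.f d, I₁.map c.f + vs c L₁, I₂.map c.f + vs c L₂, real c L₁, real c L₂,
    real_add c L₁ L₂, s1, s2, ?_⟩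
  rw [← hV.all, vs_add]
  have h4 : ((List.range N).map c.f : Multiset (Fin n)) =
      ((List.range N : Multiset ℕ)).map c.f := rfl
  rw [h4, ← h3]
  simp only [Multiset.map_cons, Multiset.map_add]
  simp only [← Multiset.singleton_add]
  abel

lemma R_mem {L L' : LF} (h : LMove L L') (k : ℕ) (w : Cycle ℕ) (hk : (Tag.R k, w) ∈ L') :
    ∃ w', (Tag.R k, w') ∈ L := by
  cases h with
  | E u v l m G huv h =>
    simp only [Multiset.mem_cons, Prod.mk.injEq, reduceCtorEq, false_and, false_or] at hk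
    exact ⟨w, Multiset.mem_cons_of_mem hk⟩
  | R k' u v l m G huv h =>
    simp only [Multiset.mem_cons, Prod.mk.injEq, reduceCtorEq, false_and, false_or] at hk
    rcases hk with ⟨h1, h2⟩ | hk
    · have h3 : k = k' := by simpa using h1
      subst h3
      exact ⟨_, Multiset.mem_cons_self _ _⟩
    · exact ⟨w, Multiset.mem_cons_of_mem hk⟩

lemma val_move {n : ℕ} {c : Ctx (Fin n)} {N : ℕ} {L L' : LF} (hC : COK c N L) (hV : Val c N L)
    (h : LMove L L') : LStep (real c L) (real c L') ∧ Val c N L' := by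
  obtain ⟨h1, h2, h3⟩ := Pool.Agent.H3.DG.LMR.pf_LMR (Fin n) c N L L' hC h
  refine ⟨h1, ?_, ?_, ?_⟩
  · intro i w hi
    exact hV.noT i w ((Pool.Agent.H3.DG.LMP.pf_LMP L L' h).2.2.2.1 i w |>.1 hi)
  · intro k w hk
    obtain ⟨w', hw'⟩ := R_mem h k w hk
    exact hV.cont k w' hw'
  · rw [h3]
    exact hV.all

lemma ans_real {n : ℕ} {c : Ctx (Fin n)} {N : ℕ} {L : LF} (hC : COK c N L) (hV : Val c N L)
    (h : Ans2 N L) : Two (real c L) ∨ ∃ F'', LStep (real c L) F'' ∧ Two F'' := by
  rcases h with h | ⟨L', h1, h2⟩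
  · exact Or.inl (two_real hV h)
  · obtain ⟨h3, h4⟩ := val_move hC hV h1
    exact Or.inr ⟨real c L', h3, two_real h4 h2⟩

/-! ### Floating points -/

lemma floats_pts {V : Type} (S : Multiset V) :
    Floats (S.map fun v => (↑[v] : Cycle V)) S := by
  induction S using Multiset.induction with
  | empty => exact Floats.nil
  | cons a S ih =>
    rw [Multiset.map_cons]
    exact Floats.k1 a _ S ih

lemma map_joinWalk {V W : Type} (g : V → W) (u : V) (l : List V) (v : V) (m : List V) :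
    (joinWalk u l v m).map g = joinWalk (g u) (l.map g) (g v) (m.map g) := by
  unfold joinWalk
  cases l <;> cases m <;> simp

/-- the context with two contents made of floats -/
def ctx {V : Type} (f : ℕ → V) (fl₁ fl₂ : Region V) (W₁ W₂ : Multiset V) : Ctx V where
  f := f
  FL k := if k = 2 then fl₂ else fl₁
  WL k := if k = 2 then W₂ else W₁
  FI _ := 0
  FS _ := 0
  WS _ := 0

lemma content_ctx {V : Type} (f : ℕ → V) {fl₁ fl₂ : Region V} {W₁ W₂ : Multiset V}
    (h1 : Floats fl₁ W₁) (h2 : Floats fl₂ W₂) (k : ℕ) :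
    Content ((ctx f fl₁ fl₂ W₁ W₂).FL k) ((ctx f fl₁ fl₂ W₁ W₂).WL k)
      ((ctx f fl₁ fl₂ W₁ W₂).FI k) := by
  left
  refine ⟨?_, rfl⟩
  simp only [ctx]
  split_ifs
  · exact h2
  · exact h1

lemma cok_ctx {n : ℕ} {f : ℕ → Fin n} {fl₁ fl₂ : Region (Fin n)} {W₁ W₂ : Multiset (Fin n)}
    (h1 : Floats fl₁ W₁) (h2 : Floats fl₂ W₂) {N : ℕ} {L : LF}
    (hV : Val (ctx f fl₁ fl₂ W₁ W₂) N L) (hlab : ∀ x ∈ L, ∀ i ∈ x.2, i < N) :
    COK (ctx f fl₁ fl₂ W₁ W₂) N L := by
  refine ⟨?_, hlab, ?_, ?_, ?_⟩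
  · rw [hV.all]
    exact Finset.univ.nodup
  · rintro ⟨t, w⟩ hx i rfl
    exact absurd hx (hV.noT i w)
  · intro i w hx
    exact absurd hx (hV.noT i w)
  · intro k w _
    constructor
    · simp only [ctx]
      split_ifs
      · exact (Pool.Agent.H65.DG.FLO.flo_corner h2)
      · exact (Pool.Agent.H65.DG.FLO.flo_corner h1)
    · intro v hv
      exact absurd hv (inR_zero v)

lemma cyc_single {V : Type} {a w : V} {l : List V} (h : (↑(a :: l) : Cycle V) = ↑[w]) :
    a = w ∧ l = [] := by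
  have h1 := Cycle.coe_eq_coe.1 h
  have h2 := h1.perm.length_eq
  simp only [List.length_cons, List.length_nil, zero_add, Nat.add_eq_right] at h2
  have h3 : l = [] := List.length_eq_zero_iff.1 h2
  subst h3
  exact ⟨Pool.Agent.H65.DG.FLO.cyc1 h, rfl⟩

lemma pts_cons_inv {V : Type} {S : Multiset V} {a : V} {m : List V} {fl' : Region V}
    (h : S.map (fun v => (↑[v] : Cycle V)) = (↑(a :: m) : Cycle V) ::ₘ fl') :
    m = [] ∧ ∃ S', S = a ::ₘ S' ∧ fl' = S'.map (fun v => (↑[v] : Cycle V)) := by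
  have h1 : (↑(a :: m) : Cycle V) ∈ S.map (fun v => (↑[v] : Cycle V)) := by
    rw [h]; exact Multiset.mem_cons_self _ _
  obtain ⟨w, hw, h2⟩ := Multiset.mem_map.1 h1
  obtain ⟨rfl, rfl⟩ := cyc_single h2.symm
  obtain ⟨S', rfl⟩ := Multiset.exists_cons_of_mem hw
  rw [Multiset.map_cons, Multiset.cons_inj_right] at h
  exact ⟨rfl, S', rfl, h.symm⟩

theorem pf_OPB : T_OPB := by
  classical
  intro n N r hr hP D hE hO
  obtain ⟨f, S, hF, hall⟩ := hO
  obtain ⟨hP1, hP2, hP3⟩ := hP
  set fl : Region (Fin n) := S.map (fun v => (↑[v] : Cycle (Fin n))) with hfl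
  have hfS : Floats fl S := floats_pts S
  -- the basic context
  set c₀ : Ctx (Fin n) := ctx f fl 0 S 0 with hc₀
  have hL₀ : toLF [(.R 0, r)] = {(Tag.R 0, (↑r : Cycle ℕ))} := rfl
  have hreal₀ : real c₀ (toLF [(.R 0, r)]) = D.regions := by
    rw [hL₀, Pool.Agent.H85.DG.SND.real_sing, hF]
    simp [real1, hc₀, ctx, Cycle.map_coe]
  have hV₀ : Val c₀ N (toLF [(.R 0, r)]) := by
    refine ⟨?_, ?_, ?_⟩
    · intro i w h
      rw [hL₀, Multiset.mem_singleton] at h
      simp at h
    · intro k w _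
      exact content_ctx f hfS Floats.nil k
    · rw [hL₀, Pool.Agent.H85.DG.SND.vs_sing]
      simpa [vs1, hc₀, ctx] using hall
  have hlab₀ : ∀ x ∈ toLF [(.R 0, r)], ∀ i ∈ x.2, i < N := by
    intro x hx i hi
    rw [hL₀, Multiset.mem_singleton] at hx
    subst hx
    exact hr i (by simpa using hi)
  have hC₀ : COK c₀ N (toLF [(.R 0, r)]) := cok_ctx hfS Floats.nil hV₀ hlab₀
  constructor
  · -- the first half
    obtain ⟨L', h1, h2⟩ := hP3
    obtain ⟨h3, h4⟩ := val_move hC₀ hV₀ h1
    rw [hreal₀] at h3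
    obtain ⟨D', hD', hD'r⟩ := step_draw hE h3
    refine ⟨D', hD', einv_draw hE hD', ?_⟩
    rw [hD'r]
    exact two_real h4 h2
  · intro D' hD'
    have hE' := einv_draw hE hD'
    refine ⟨hE', ?_⟩
    -- it suffices to give a labelled picture
    suffices hmain : Two D'.regions ∨ ∃ F'', LStep D'.regions F'' ∧ Two F'' by
      rcases hmain with h | ⟨F'', h1, h2⟩
      · exact Or.inl h
      · obtain ⟨D'', h3, rfl⟩ := step_draw hE' h1
        exact Or.inr ⟨D'', h3, einv_draw hE' h3, h2⟩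
    obtain ⟨u, v, huv, hadj, Φ, Ψ, G, hG, hG', hm⟩ := draw_step hE hD'
    have h0 : Φ = (↑(r.map f) : Cycle (Fin n)) ::ₘ fl ∧ G = 0 := by
      rw [hG, ← Multiset.cons_zero] at hF
      rcases Multiset.cons_eq_cons.1 hF with ⟨h3, h4⟩ | ⟨_, cs, _, h3⟩
      · exact ⟨h3, h4⟩
      · exact absurd h3.symm Multiset.cons_ne_zero
    obtain ⟨rfl, rfl⟩ := h0
    rw [add_zero] at hG'
    rcases Pool.Agent.H33.DG.INV.pf_INV (Fin n) _ fl u v Ψ hm with
      ⟨l, m, fl₁, fl₂, hX, hff, rfl⟩ | ⟨u', v', l, m, fl', hor, hX, hff, rfl⟩ |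
      ⟨l, m, fl', hff, rfl⟩ | ⟨l, m, hff⟩
    · -- a chord
      obtain ⟨W₁, W₂, rfl, hW₁, hW₂⟩ := (Pool.Agent.H65.DG.FLO.flo_split hfS) fl₁ fl₂ hff
      obtain ⟨p, l', q, u', v', rfl, hcase⟩ :=
        (Pool.Agent.H33.DG.DEC.pf_DEC (Fin n) f r).1 u v l m hX.symm
      have hu' : u' < N := hr u' (by simp)
      have hv' : v' < N := hr v' (by simp)
      have hne : u' ≠ v' := by
        rintro rfl
        rcases hcase with ⟨h1, h2, _⟩ | ⟨h1, h2, _⟩
        · exact huv (h1.trans h2.symm)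
        · exact huv (h2.trans h1.symm)
      have hA := (Pool.Agent.H3.DG.ADJ.pf_ADJ (Fin n) c₀ N _ hC₀).1 u' v' hu' hv' hne
      rw [hreal₀] at hA
      have hnl : ¬ LAdj (toLF [(.R 0, p ++ u' :: (l' ++ v' :: q))]) u' v' := by
        intro hl
        have h4 := hA.2 hl
        rcases hcase with ⟨h1, h2, _⟩ | ⟨h1, h2, _⟩
        · rw [h1, h2] at hadj; exact hadj h4
        · rw [h1, h2] at hadj; exact hadj h4.symm
      have hans := hP1 p l' q u' v' rfl hne hnl
      have hlab : ∀ x ∈ ((Tag.R 1, (↑(u' :: (l' ++ [v'])) : Cycle ℕ)) ::ₘ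
          ({(Tag.R 2, (↑(v' :: ((q ++ p) ++ [u'])) : Cycle ℕ))} : LF)), ∀ i ∈ x.2, i < N := by
        intro x hx i hi
        rw [Multiset.mem_cons, Multiset.mem_singleton] at hx
        rcases hx with rfl | rfl
        · apply hr i
          simp only [Cycle.mem_coe_iff, List.mem_cons, List.mem_append] at hi ⊢
          tauto
        · apply hr i
          simp only [Cycle.mem_coe_iff, List.mem_cons, List.mem_append] at hi ⊢
          tauto
      have key : ∀ (g₁ g₂ : Region (Fin n)) (X₁ X₂ : Multiset (Fin n)), Floats g₁ X₁ →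
          Floats g₂ X₂ → X₁ + X₂ = W₁ + W₂ →
          D'.regions = {(↑((u' :: (l' ++ [v'])).map f) : Cycle (Fin n)) ::ₘ g₁,
            (↑((v' :: ((q ++ p) ++ [u'])).map f) : Cycle (Fin n)) ::ₘ g₂} →
          Two D'.regions ∨ ∃ F'', LStep D'.regions F'' ∧ Two F'' := by
        intro g₁ g₂ X₁ X₂ hg₁ hg₂ hsum hreg
        have hreal : real (ctx f g₁ g₂ X₁ X₂) ((Tag.R 1, (↑(u' :: (l' ++ [v'])) : Cycle ℕ)) ::ₘ
          ({(Tag.R 2, (↑(v' :: ((q ++ p) ++ [u'])) : Cycle ℕ))} : LF)) = D'.regions := by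
          rw [Pool.Agent.H85.DG.SND.real_cons, Pool.Agent.H85.DG.SND.real_sing, hreg]
          simp only [real1, ctx, Cycle.map_coe]
          simp
        have hV : Val (ctx f g₁ g₂ X₁ X₂) N ((Tag.R 1, (↑(u' :: (l' ++ [v'])) : Cycle ℕ)) ::ₘ
          ({(Tag.R 2, (↑(v' :: ((q ++ p) ++ [u'])) : Cycle ℕ))} : LF)) := by
          refine ⟨?_, ?_, ?_⟩
          · intro i w h
            rw [Multiset.mem_cons, Multiset.mem_singleton] at h
            simp at h
          · intro k w _
            exact content_ctx f hg₁ hg₂ k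
          · rw [Pool.Agent.H85.DG.SND.vs_cons, Pool.Agent.H85.DG.SND.vs_sing, ← hall, ← hsum]
            simp [vs1, ctx]
        have := ans_real (cok_ctx hg₁ hg₂ hV hlab) hV hans
        rw [hreal] at this
        exact this
      rcases hcase with ⟨rfl, rfl, rfl, rfl⟩ | ⟨rfl, rfl, rfl, rfl⟩
      · refine key fl₁ fl₂ W₁ W₂ hW₁ hW₂ rfl ?_
        rw [hG']
        simp
      · refine key fl₂ fl₁ W₂ W₁ hW₂ hW₁ (add_comm _ _) ?_
        rw [hG']
        simp only [Multiset.insert_eq_cons, ← Multiset.cons_zero, List.map_cons, List.map_append,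
          List.map_nil]
        exact Multiset.cons_swap _ _ _
    · -- the big walk is joined with an isolated point
      obtain ⟨rfl, S', hS', hfl'⟩ := pts_cons_inv hff
      obtain ⟨a, l', hrot, rfl, rfl⟩ := (Pool.Agent.H33.DG.DEC.pf_DEC (Fin n) f r).2 u' l hX.symm
      have hans := hP2 a l' hrot
      set f' : ℕ → Fin n := Function.update f N v' with hf'
      have hlab1 : ∀ i ∈ a :: l', i < N := fun i hi => hr i (hrot.perm.mem_iff.2 hi)
      have hfi : ∀ i, i < N → f' i = f i := by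
        intro i hi
        rw [hf', Function.update_of_ne (by omega)]
      have hmap : (a :: l').map f' = (a :: l').map f :=
        List.map_congr_left fun i hi => hfi i (hlab1 i hi)
      rw [List.map_cons, List.map_cons, List.cons.injEq] at hmap
      have hfN : f' N = v' := by rw [hf', Function.update_self]
      have hfS' : Floats fl' S' := by rw [hfl']; exact floats_pts S'
      have hreal : real (ctx f' fl' 0 S' 0)
          {(Tag.R 0, (↑(joinWalk a l' N []) : Cycle ℕ))} = D'.regions := by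
        rw [Pool.Agent.H85.DG.SND.real_sing, hG']
        simp only [real1, ctx, Cycle.map_coe, map_joinWalk]
        rw [hmap.1, hmap.2, hfN]
        simp
      have hV : Val (ctx f' fl' 0 S' 0) (N + 1)
          {(Tag.R 0, (↑(joinWalk a l' N []) : Cycle ℕ))} := by
        refine ⟨?_, ?_, ?_⟩
        · intro i w h
          rw [Multiset.mem_singleton] at h
          simp at h
        · intro k w _
          exact content_ctx f' hfS' Floats.nil k
        · rw [Pool.Agent.H85.DG.SND.vs_sing, ← hall, hS', List.range_succ, List.map_append]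
          have : (List.range N).map f' = (List.range N).map f :=
            List.map_congr_left fun i hi => hfi i (List.mem_range.1 hi)
          simp only [ctx]
          rw [this, List.map_singleton, hfN]
          simp only [vs1]
          rw [← Multiset.coe_add, ← Multiset.singleton_add, add_assoc]
          rfl
      have hlab : ∀ x ∈ ({(Tag.R 0, (↑(joinWalk a l' N []) : Cycle ℕ))} : LF), ∀ i ∈ x.2,
          i < N + 1 := by
        intro x hx i hi
        rw [Multiset.mem_singleton] at hx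
        subst hx
        simp only [Cycle.mem_coe_iff, joinWalk_mem] at hi
        rcases hi with hi | hi
        · have := hlab1 i hi
          omega
        · simp at hi
          omega
      have := ans_real (cok_ctx hfS' Floats.nil hV hlab) hV hans
      rw [hreal] at this
      exact this
    · -- two isolated points are joined
      obtain ⟨rfl, S', hS', hfl'⟩ := pts_cons_inv hff
      obtain ⟨rfl, S'', hS'', hfl''⟩ := pts_cons_inv hfl'.symm
      subst hS'' hS'
      have hf2 : Floats ((↑[u, v] : Cycle (Fin n)) ::ₘ fl') (u ::ₘ v ::ₘ S'') := by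
        rw [hfl'']
        exact Floats.k2 u v _ _ (floats_pts S'')
      have hreal : real (ctx f ((↑[u, v] : Cycle (Fin n)) ::ₘ fl') 0 (u ::ₘ v ::ₘ S'') 0)
          (toLF [(.R 0, r)]) = D'.regions := by
        rw [hL₀, Pool.Agent.H85.DG.SND.real_sing, hG']
        simp only [real1, ctx, Cycle.map_coe, joinWalk]
        simp
      have hV : Val (ctx f ((↑[u, v] : Cycle (Fin n)) ::ₘ fl') 0 (u ::ₘ v ::ₘ S'') 0) N
          (toLF [(.R 0, r)]) := by
        refine ⟨hV₀.noT, ?_, ?_⟩
        · intro k w _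
          exact content_ctx f hf2 Floats.nil k
        · rw [hL₀, Pool.Agent.H85.DG.SND.vs_sing, ← hall]
          simp [vs1, ctx]
      have := ans_real (cok_ctx hf2 Floats.nil hV hlab₀) hV (Or.inr hP3)
      rw [hreal] at this
      exact this
    · -- impossible
      exfalso
      rw [hfl] at hff
      obtain ⟨w, _, h2⟩ := Multiset.mem_map.1 hff
      have := (cyc_single h2.symm).2
      simp at this

end Pool.Agent.H2.DG.OPB
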